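import Pool.Agent.Lib.MP_8cd3bd_co.Final

set_option autoImplicit false

namespace Pool.Agent.Results.MP_8cd3bd_co.Unbounded

/-- The Hamiltonian extension number: the largest `k` with `1 ≤ k ≤ |V|` such that every path
with at most `k` vertices has all its vertices and edges on some Hamiltonian cycle. -/
noncomputable def he {V : Type} [Fintype V] [DecidableEq V] (G : SimpleGraph V) : ℕ :=
  sSup {k : ℕ | 1 ≤ k ∧ k ≤ Fintype.card V ∧
    ∀ (u v : V) (p : G.Walk u v), p.IsPath → p.support.length ≤ k →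
      ∃ (x : V) (c : G.Walk x x), c.IsHamiltonianCycle ∧
        (∀ y ∈ p.support, y ∈ c.support) ∧ ∀ e ∈ p.edges, e ∈ c.edges}

theorem result : ∀ k : ℕ, ∃ (V : Type) (_ : Fintype V) (_ : DecidableEq V) (G : SimpleGraph V)
    (_ : DecidableRel G.Adj), G.IsRegularOfDegree 3 ∧ G.IsHamiltonian ∧ k ≤ he G := by
  intro k
  obtain ⟨V, i1, i2, G, i3, h1, h2, h3, h4⟩ := Pool.Agent.Lib.MP_8cd3bd_co.exists_cubic (k + 1)
  refine ⟨V, i1, i2, G, i3, h1, h2, (Nat.le_succ k).trans (le_csSup ⟨Fintype.card V, ?_⟩ ?_)⟩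
  · exact fun m hm => hm.2.1
  · refine ⟨by omega, h3, fun u v p hp hl => ?_⟩
    obtain ⟨c, hc, he⟩ := h4 u v p hp (by rw [SimpleGraph.Walk.length_support] at hl; omega)
    exact ⟨u, c, hc, fun y _ => hc.mem_support y, he⟩

end Pool.Agent.Results.MP_8cd3bd_co.Unbounded
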